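import Pool.Agent.Lib.HL14.Defs
import Pool.Agent.Lib.ZP3.AxLie
import Pool.Agent.Lib.ZP3.JBasic
import Pool.Agent.Lib.RC.Aut89

/-! Two by two matrices: conjugates of the complex structure. -/

open UpperHalfPlane

namespace Pool.Agent.Lib.HL14

open Pool.Agent.Lib.MP_0704bf_ag Pool.Agent.Lib.ZP3 Pool.Agent.Lib.ZP3.AXG

theorem fixed_rat {a : ℂ} (h : ∀ σ : ℂ ≃+* ℂ, σ a = a) : ∃ q : ℚ, (q : ℂ) = a := by
  have hc : Countable (Polynomial ℚ) := by
    rw [← Cardinal.mk_le_aleph0_iff]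
    exact Polynomial.cardinalMk_le_max.trans (by simp)
  have key : ∀ b : ℂ, (∀ r : Polynomial ℚ, Polynomial.aeval a r = 0 ↔ Polynomial.aeval b r = 0) →
      b = a := by
    intro b hb
    obtain ⟨τ, hτ⟩ := Pool.Agent.RC.H89.exists_aut_of_ker (R := Polynomial ℚ)
      (Polynomial.aeval a).toRingHom (Polynomial.aeval b).toRingHom hb
    have := hτ Polynomial.X
    simp only [AlgHom.toRingHom_eq_coe, RingHom.coe_coe, Polynomial.aeval_X] at this
    rw [← this, h]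
  by_cases ha : IsAlgebraic ℚ a
  · have hi := ha.isIntegral
    have hs : (minpoly ℚ a).Separable := (minpoly.irreducible hi).separable
    have h1 : (minpoly ℚ a).natDegree = 1 := by
      have h2 := Polynomial.card_rootSet_eq_natDegree (K := ℂ) hs (IsAlgClosed.splits _)
      rw [← h2, Fintype.card_eq_one_iff]
      have h3 : a ∈ (minpoly ℚ a).rootSet ℂ := by
        rw [Polynomial.mem_rootSet]
        exact ⟨minpoly.ne_zero hi, minpoly.aeval _ _⟩
      refine ⟨⟨a, h3⟩, fun b ↦ Subtype.ext (key b fun r ↦ ?_)⟩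
      have h4 : minpoly ℚ a = minpoly ℚ (b : ℂ) :=
        minpoly.eq_of_irreducible_of_monic (minpoly.irreducible hi)
          (Polynomial.mem_rootSet.1 b.2).2 (minpoly.monic hi)
      rw [← minpoly.dvd_iff, ← minpoly.dvd_iff, ← h4]
    obtain ⟨q, hq⟩ := minpoly.natDegree_eq_one_iff.1 h1
    exact ⟨q, hq⟩
  · have hb : ¬ IsAlgebraic ℚ (a + 1) := fun k ↦ ha (by
      simpa using k.sub (isAlgebraic_one (R := ℚ) (A := ℂ)))
    have := key (a + 1) fun r ↦
      ⟨fun k ↦ by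
        by_cases hr : r = 0
        · simp [hr]
        · exact absurd ⟨r, hr, k⟩ ha,
       fun k ↦ by
        by_cases hr : r = 0
        · simp [hr]
        · exact absurd ⟨r, hr, k⟩ hb⟩
    simp at this

theorem im_ne (τ : ℍ) : (τ.im : ℂ) ≠ 0 := by exact_mod_cast τ.im_pos.ne'

theorem coe_eq (τ : ℍ) : (τ : ℂ) = τ.re + τ.im * Complex.I := (Complex.re_add_im (τ : ℂ)).symm

theorem cx00 (τ : ℍ) : cx τ 0 0 = (τ.im : ℂ)⁻¹ * τ.re := by simp [cx]
theorem cx01 (τ : ℍ) : cx τ 0 1 = -((τ.im : ℂ)⁻¹ * ((τ.re : ℂ) ^ 2 + (τ.im : ℂ) ^ 2)) := by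
  simp only [cx, Matrix.smul_apply, smul_eq_mul]
  simp only [Matrix.of_apply, Matrix.cons_val', Matrix.cons_val_one, Matrix.cons_val_zero,
    Matrix.cons_val_fin_one]
  ring
theorem cx10 (τ : ℍ) : cx τ 1 0 = (τ.im : ℂ)⁻¹ := by simp [cx]
theorem cx11 (τ : ℍ) : cx τ 1 1 = -((τ.im : ℂ)⁻¹ * τ.re) := by simp [cx]

theorem cx_tr (τ : ℍ) : (cx τ).trace = 0 := by
  rw [Matrix.trace_fin_two, cx00, cx11, add_neg_cancel]

theorem cx_sq (τ : ℍ) : cx τ * cx τ = -1 := by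
  have := im_ne τ
  ext a b
  fin_cases a <;> fin_cases b <;>
    simp [Matrix.mul_apply, Fin.sum_univ_two, cx00, cx01, cx10, cx11] <;> field_simp <;> ring

/-- a real matrix -/
def Re (A : M2) : Prop := ∀ a b, (A a b).im = 0

theorem Re.mul {A B : M2} (hA : Re A) (hB : Re B) : Re (A * B) := fun a b ↦ by
  simp [Matrix.mul_apply, Fin.sum_univ_two, hA _ _, hB _ _]

theorem Re.eq {A : M2} (hA : Re A) (a b : Fin 2) : A a b = ((A a b).re : ℂ) :=
  Complex.ext (by simp) (by simp [hA a b])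

theorem mob_of_comm {τ τ' : ℍ} {A : M2} (h : A * cx τ = cx τ' * A) :
    (τ' : ℂ) * (A 1 0 * τ + A 1 1) = A 0 0 * τ + A 0 1 := by
  have h0 := congrFun (congrFun h 1) 0
  have h1 := congrFun (congrFun h 1) 1
  simp only [Matrix.mul_apply, Fin.sum_univ_two, cx00, cx01, cx10, cx11] at h0 h1
  have k := im_ne τ
  have k' := im_ne τ'
  rw [coe_eq τ, coe_eq τ']
  field_simp at h0 h1
  apply mul_left_cancel₀ k
  linear_combination (τ.re + τ.im * Complex.I : ℂ) * h0 + h1 +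
    (A 1 0 * τ'.im * τ.im ^ 2 : ℂ) * Complex.I_sq

theorem comm_of_mob {τ τ' : ℍ} {A : M2} (hA : Re A)
    (h : (τ' : ℂ) * (A 1 0 * τ + A 1 1) = A 0 0 * τ + A 0 1) : A * cx τ = cx τ' * A := by
  have h1 := congrArg Complex.re h
  have h2 := congrArg Complex.im h
  simp only [Complex.mul_re, Complex.mul_im, Complex.add_re, Complex.add_im, hA _ _, coe_re, coe_im,
    zero_mul, sub_zero, add_zero] at h1 h2
  have g1 := congrArg (fun r : ℝ ↦ (r : ℂ)) h1
  have g2 := congrArg (fun r : ℝ ↦ (r : ℂ)) h2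
  push_cast at g1 g2
  simp only [← hA.eq] at g1 g2
  have k := im_ne τ
  have k' := im_ne τ'
  ext a b
  fin_cases a <;> fin_cases b <;>
    simp only [Matrix.mul_apply, Fin.sum_univ_two, cx00, cx01, cx10, cx11, Fin.zero_eta,
      Fin.mk_one, Fin.isValue] <;> field_simp
  · linear_combination (-τ'.im : ℂ) * g1 + (τ'.re : ℂ) * g2
  · linear_combination (τ.re * τ'.im + τ.im * τ'.re : ℂ) * g1 +
      (τ.im * τ'.im - τ.re * τ'.re : ℂ) * g2
  · linear_combination g2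
  · linear_combination (τ.im : ℂ) * g1 - (τ.re : ℂ) * g2

/-- conjugate of a matrix under an automorphism of the complex numbers -/
abbrev cj (σ : ℂ ≃+* ℂ) (A : M2) : M2 := σ.mapMatrix A

theorem cj_apply (σ : ℂ ≃+* ℂ) (A : M2) (a b : Fin 2) : cj σ A a b = σ (A a b) := rfl

theorem cj_mul (σ : ℂ ≃+* ℂ) (A B : M2) : cj σ (A * B) = cj σ A * cj σ B :=
  map_mul σ.mapMatrix A B

theorem cj_tr (σ : ℂ ≃+* ℂ) {A : M2} (h : A.trace = 0) : (cj σ A).trace = 0 := by
  rw [Matrix.trace_fin_two] at h ⊢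
  rw [cj_apply, cj_apply, ← map_add, h, map_zero]

theorem cj_cj (σ ρ : ℂ ≃+* ℂ) (A : M2) : cj ρ (cj σ A) = cj (σ.trans ρ) A := rfl

theorem gen_of {𝔤 : Submodule ℂ M2} (hb : ∀ X ∈ 𝔤, ∀ Y ∈ 𝔤, X * Y - Y * X ∈ 𝔤) {τ : ℍ}
    (hJ : cx τ ∈ 𝔤) {Y : M2} (hY : Y ∈ 𝔤) (ht : Y.trace = 0)
    (h1 : Y 1 0 * τ ^ 2 - 2 * Y 0 0 * τ - Y 0 1 ≠ 0)
    (h2 : Y 1 0 * (starRingEnd ℂ τ) ^ 2 - 2 * Y 0 0 * (starRingEnd ℂ τ) - Y 0 1 ≠ 0)
    (W : M2) (hW : W.trace = 0) : W ∈ 𝔤 := by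
  have h := gram (cx_tr τ) ht hW
  have hne : 2 * ((cx τ * Y).trace ^ 2 - (cx τ * cx τ).trace * (Y * Y).trace) ≠ 0 := by
    refine mul_ne_zero two_ne_zero fun k ↦ mul_ne_zero h1 h2 ?_
    have e : starRingEnd ℂ τ = τ.re - τ.im * Complex.I := by
      rw [coe_eq τ]
      simp [sub_eq_add_neg]
    have := im_ne τ
    rw [cx_sq] at k
    simp only [Matrix.trace_fin_two, Matrix.mul_apply, Fin.sum_univ_two, cx00, cx01, cx10, cx11,
      tr_zero ht, Matrix.neg_apply, Matrix.one_apply_eq] at k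
    field_simp at k
    rw [e, coe_eq τ]
    linear_combination k + (2 * (Y 1 0 * τ.re ^ 2 - 2 * Y 0 0 * τ.re - Y 0 1) * (Y 1 0 * τ.im ^ 2) +
      (Y 1 0 * τ.im ^ 2) ^ 2 * (Complex.I ^ 2 - 1) -
      (2 * Y 1 0 * τ.re * τ.im - 2 * Y 0 0 * τ.im) ^ 2 : ℂ) * Complex.I_sq
  rw [← 𝔤.smul_mem_iff hne, h]
  exact 𝔤.sub_mem (𝔤.sub_mem (𝔤.smul_mem _ (hb _ hJ Y hY)) (𝔤.smul_mem _ hJ)) (𝔤.smul_mem _ hY)

theorem conj_coe (τ : ℍ) : starRingEnd ℂ τ = τ.re - τ.im * Complex.I := by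
  rw [coe_eq τ]
  simp [sub_eq_add_neg]

theorem cm_of_rat {τ : ℍ} {p q : ℚ} (hp : (p : ℂ) = τ.re)
    (hq : (q : ℂ) = (τ.re : ℂ) ^ 2 + (τ.im : ℂ) ^ 2) : IsCM τ := by
  have e1 : ((p.num : ℤ) : ℂ) = p * p.den := by exact_mod_cast (Rat.mul_den_eq_num p).symm
  have e2 : ((q.num : ℤ) : ℂ) = q * q.den := by exact_mod_cast (Rat.mul_den_eq_num q).symm
  refine ⟨p.den * q.den, -2 * p.num * q.den, q.num * p.den,
    by exact_mod_cast mul_ne_zero p.den_nz q.den_nz, ?_⟩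
  push_cast
  rw [e1, e2, hp, hq, coe_eq τ]
  linear_combination (p.den * q.den * τ.im ^ 2 : ℂ) * Complex.I_sq

/-- the conjugates of the complex structure of a curve without complex multiplication generate -/
theorem sl2_of_nonCM {τ : ℍ} (hτ : ¬ IsCM τ) {𝔤 : Submodule ℂ M2}
    (hb : ∀ X ∈ 𝔤, ∀ Y ∈ 𝔤, X * Y - Y * X ∈ 𝔤) (hJ : ∀ σ, cj σ (cx τ) ∈ 𝔤) (W : M2)
    (hW : W.trace = 0) : W ∈ 𝔤 := by
  by_contra hW'
  have k := im_ne τ
  have key : ∀ σ : ℂ ≃+* ℂ, σ τ.re = τ.re ∧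
      σ ((τ.re : ℂ) ^ 2 + (τ.im : ℂ) ^ 2) = (τ.re : ℂ) ^ 2 + (τ.im : ℂ) ^ 2 := by
    intro σ
    set Y := cj σ (cx τ) with hY
    set Z := cj (σ.trans (starRingAut (R := ℂ))) (cx τ) with hZ
    have hZY : ∀ a b, Z a b = starRingEnd ℂ (Y a b) := fun a b ↦ rfl
    set α := Y 1 0 * τ ^ 2 - 2 * Y 0 0 * τ - Y 0 1 with hα
    set β := Y 1 0 * (starRingEnd ℂ τ) ^ 2 - 2 * Y 0 0 * (starRingEnd ℂ τ) - Y 0 1 with hβ
    have H : ∀ s : ℝ, α + s * starRingEnd ℂ β = 0 ∨ β + s * starRingEnd ℂ α = 0 := by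
      intro s
      by_contra hc
      push Not at hc
      refine hW' (gen_of hb (hJ (RingEquiv.refl ℂ)) (Y := Y + (s : ℂ) • Z)
        (𝔤.add_mem (hJ _) (𝔤.smul_mem _ (hJ _))) ?_ (fun e ↦ hc.1 ?_) (fun e ↦ hc.2 ?_) W hW)
      · rw [Matrix.trace_add, Matrix.trace_smul, hY, hZ, cj_tr _ (cx_tr τ), cj_tr _ (cx_tr τ)]
        simp
      · simp only [Matrix.add_apply, Matrix.smul_apply, smul_eq_mul, hZY] at e
        simp only [hα, hβ, map_sub, map_mul, map_pow, Complex.conj_conj, map_ofNat]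
        linear_combination e
      · simp only [Matrix.add_apply, Matrix.smul_apply, smul_eq_mul, hZY] at e
        simp only [hα, hβ, map_sub, map_mul, map_pow, Complex.conj_conj, map_ofNat]
        linear_combination e
    have H1 : α + starRingEnd ℂ β = 0 := by
      rcases H 1 with h | h
      · simpa using h
      · have := congrArg (starRingEnd ℂ) h
        simp only [map_add, map_mul, Complex.conj_conj, Complex.conj_ofReal, map_zero] at this
        push_cast at this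
        linear_combination this
    have H2 : α - starRingEnd ℂ β = 0 := by
      rcases H (-1) with h | h
      · push_cast at h
        linear_combination h
      · have := congrArg (starRingEnd ℂ) h
        simp only [map_add, map_mul, Complex.conj_conj, Complex.conj_ofReal, map_zero] at this
        push_cast at this
        linear_combination -this
    have a0 : α = 0 := by linear_combination (H1 + H2) / 2
    have b0 : β = 0 := by
      rw [← map_eq_zero (starRingEnd ℂ)]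
      linear_combination (H1 - H2) / 2
    rw [hβ, conj_coe] at b0
    rw [hα, coe_eq τ] at a0
    have c1 : Y 0 0 = Y 1 0 * τ.re := by
      apply mul_left_cancel₀ (mul_ne_zero k Complex.I_ne_zero)
      linear_combination (b0 - a0) / 4
    have c2 : Y 0 1 = -(Y 1 0 * ((τ.re : ℂ) ^ 2 + (τ.im : ℂ) ^ 2)) := by
      linear_combination -(a0 + b0) / 2 - (2 * τ.re : ℂ) * c1 + (Y 1 0 * τ.im ^ 2 : ℂ) * Complex.I_sq
    simp only [hY, cj_apply, cx00, cx01, cx10, map_mul, map_neg, neg_inj] at c1 c2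
    have k' : σ (τ.im : ℂ)⁻¹ ≠ 0 := by simpa using k
    exact ⟨mul_left_cancel₀ k' c1, mul_left_cancel₀ k' c2⟩
  obtain ⟨p, hp⟩ := fixed_rat fun σ ↦ (key σ).1
  obtain ⟨q, hq⟩ := fixed_rat fun σ ↦ (key σ).2
  exact hτ (cm_of_rat hp hq)

theorem br_int {U V U' V' K : M2} (a1 : U' * K = K * U) (a2 : V' * K = K * V) :
    (U' * V' - V' * U') * K = K * (U * V - V * U) := by
  rw [sub_mul, mul_sub, mul_assoc, a2, ← mul_assoc, a1, mul_assoc, mul_assoc, a1,
    ← mul_assoc V', a2, mul_assoc]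

/-- an intertwiner of all conjugates is an isogeny -/
theorem rel_of_link {τ τ' : ℍ} (hτ : ¬ IsCM τ) {g : M2} (hg : g.det ≠ 0)
    (h : ∀ σ, cj σ (cx τ') * g = g * cj σ (cx τ)) : ∃ N : ℕ, 0 < N ∧ Rel N τ τ' := by
  have key : ∀ ρ : ℂ ≃+* ℂ, ∃ c : ℂ, cj ρ g = c • g := by
    intro ρ
    let 𝔤 : Submodule ℂ M2 :=
      { carrier := {W | ∃ W' : M2, W' * g = g * W ∧ W' * cj ρ g = cj ρ g * W}
        add_mem' := by
          rintro U V ⟨U', a1, a2⟩ ⟨V', b1, b2⟩
          exact ⟨U' + V', by rw [add_mul, mul_add, a1, b1], by rw [add_mul, mul_add, a2, b2]⟩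
        zero_mem' := ⟨0, by simp, by simp⟩
        smul_mem' := by
          rintro c U ⟨U', a1, a2⟩
          exact ⟨c • U', by rw [Matrix.smul_mul, Matrix.mul_smul, a1],
            by rw [Matrix.smul_mul, Matrix.mul_smul, a2]⟩ }
    refine comm_of hg (P := fun W ↦ W ∈ 𝔤) (sl2_of_nonCM hτ ?_ fun σ ↦ ⟨_, h σ, ?_⟩) fun _ h ↦ h
    · rintro U ⟨U', a1, a2⟩ V ⟨V', b1, b2⟩
      exact ⟨_, br_int a1 b1, br_int a2 b2⟩
    · have := congrArg (cj ρ) (h (σ.trans ρ.symm))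
      rw [cj_mul, cj_mul] at this
      have e : ∀ A, cj ρ (cj (σ.trans ρ.symm) A) = cj σ A := fun A ↦ by
        ext a b
        simp [cj_apply]
      exact (congrArg₂ (· * ·) (e _).symm rfl).trans (this.trans (congrArg₂ (· * ·) rfl (e _)))
  obtain ⟨a, b, hab⟩ : ∃ a b, g a b ≠ 0 := by
    by_contra hc
    push Not at hc
    apply hg
    simp [Matrix.det_fin_two, hc]
  have hq : ∀ i j, ∃ q : ℚ, (q : ℂ) = g i j / g a b := fun i j ↦ fixed_rat fun ρ ↦ by
    obtain ⟨c, hc⟩ := key ρ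
    have e1 : ρ (g i j) = c * g i j := congrFun (congrFun hc i) j
    have e2 : ρ (g a b) = c * g a b := congrFun (congrFun hc a) b
    have e3 : c ≠ 0 := by
      rintro rfl
      simp [hab] at e2
    rw [map_div₀, e1, e2, mul_div_mul_left _ _ e3]
  choose q hq using hq
  obtain ⟨D, hD⟩ := IsLocalization.exist_integer_multiples_of_finite (nonZeroDivisors ℤ)
    fun ij : Fin 2 × Fin 2 ↦ q ij.1 ij.2
  choose m hm using hD
  have hD0 : ((D : ℤ) : ℂ) ≠ 0 := by exact_mod_cast nonZeroDivisors.coe_ne_zero D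
  have hm' : ∀ i j, (m (i, j) : ℂ) = (D : ℤ) * (g i j / g a b) := fun i j ↦ by
    rw [← hq]
    have := hm (i, j)
    simp only [eq_intCast, algebraMap_int_eq, zsmul_eq_mul] at this
    exact_mod_cast this
  have h1 := mob_of_comm (τ := τ) (τ' := τ') (A := g) (h (RingEquiv.refl ℂ)).symm
  have h2 : Mob (m (0, 0)) (m (0, 1)) (m (1, 0)) (m (1, 1)) τ τ' := by
    unfold Mob
    simp only [hm']
    linear_combination ((D : ℤ) / g a b : ℂ) * h1
  have h3 := mob_det_nonneg τ.im_pos τ'.im_pos h2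
  have h4 : m (0, 0) * m (1, 1) - m (0, 1) * m (1, 0) ≠ 0 := by
    intro e
    have e' := congrArg (fun r : ℤ ↦ (r : ℂ)) e
    push_cast at e'
    simp only [hm'] at e'
    apply hg
    rw [Matrix.det_fin_two]
    field_simp at e'
    apply mul_left_cancel₀ (pow_ne_zero 2 hD0)
    linear_combination e'
  exact ⟨(m (0, 0) * m (1, 1) - m (0, 1) * m (1, 0)).toNat, by omega, _, _, _, _,
    (Int.toNat_of_nonneg h3).symm, h2⟩

/-- traceless matrices commuting with a matrix that is not triangular commute -/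
theorem comm_br {A X Y : M2} (hA : A 1 0 ≠ 0) (hX : X.trace = 0) (hY : Y.trace = 0)
    (h1 : A * X = X * A) (h2 : A * Y = Y * A) : X * Y - Y * X = 0 := by
  have t1 := tr_zero hX
  have t2 := tr_zero hY
  have a0 := congrFun (congrFun h1 0) 0
  have a1 := congrFun (congrFun h1 1) 0
  have b0 := congrFun (congrFun h2 0) 0
  have b1 := congrFun (congrFun h2 1) 0
  simp only [Matrix.mul_apply, Fin.sum_univ_two, t1, t2] at a0 a1 b0 b1
  ext a b
  fin_cases a <;> fin_cases b <;>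
    simp only [Matrix.sub_apply, Matrix.mul_apply, Fin.sum_univ_two, t1, t2, Fin.zero_eta,
      Fin.mk_one, Fin.isValue, Matrix.zero_apply]
  · apply mul_left_cancel₀ hA
    linear_combination Y 1 0 * (-a0) + X 1 0 * b0
  · apply mul_left_cancel₀ (pow_ne_zero 2 hA)
    linear_combination A 0 1 * Y 1 0 * a1 - A 0 1 * X 1 0 * b1 - 2 * A 1 0 * X 0 0 * b0 +
      2 * A 1 0 * Y 0 0 * a0
  · apply mul_left_cancel₀ hA
    linear_combination X 1 0 * b1 - Y 1 0 * a1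
  · apply mul_left_cancel₀ hA
    linear_combination Y 1 0 * a0 - X 1 0 * b0

end Pool.Agent.Lib.HL14
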