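import Pool.Agent.Lib.MP_0704bf_ag.Defs

/-! Mumford-Tate groups, Mumford-Tate domains and Hodge subvarieties for products of elliptic
curves. -/

open UpperHalfPlane

namespace Pool.Agent.Lib.HL14

open Pool.Agent.Lib.MP_0704bf_ag

variable {n : ℕ}

/-- The complex structure on the first cohomology of the elliptic curve `ℂ / (ℤ τ + ℤ)`, in the
basis dual to the cycles `τ, 1`: the real matrix which has the period vector `(τ, 1)` as an
eigenvector with eigenvalue `i`. -/
noncomputable def cx (τ : ℍ) : Matrix (Fin 2) (Fin 2) ℂ :=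
  (τ.im : ℂ)⁻¹ • !![(τ.re : ℂ), -((τ.re : ℂ) ^ 2 + (τ.im : ℂ) ^ 2); 1, -(τ.re : ℂ)]

/-- The Hodge structure of weight one on the first cohomology of a product of elliptic curves: the
complex number `z` acts by `z` on `H^{1,0}` and by its conjugate on `H^{0,1}`. -/
noncomputable def hodge (τ : Fin n → ℍ) (z : ℂ) : Matrix (Fin 2 × Fin n) (Fin 2 × Fin n) ℂ :=
  (z.re : ℂ) • 1 + (z.im : ℂ) • Matrix.blockDiagonal fun i ↦ cx (τ i)

/-- Complex points of an algebraic subgroup of the general linear group defined over `ℚ`. -/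
def IsQGroup {N : Type} [Fintype N] [DecidableEq N] (H : Subgroup (GL N ℂ)) : Prop :=
  ∃ S : Set (MvPolynomial (N × N) ℚ), ∀ g : GL N ℂ,
    g ∈ H ↔ ∀ p ∈ S, MvPolynomial.aeval (fun v ↦ g.val v.1 v.2) p = 0

/-- The Mumford-Tate group: the smallest algebraic `ℚ`-group containing the Hodge torus. -/
noncomputable def MT (τ : Fin n → ℍ) : Subgroup (GL (Fin 2 × Fin n) ℂ) :=
  sInf {H | IsQGroup H ∧ ∀ (g : GL (Fin 2 × Fin n) ℂ) (z : ℂ), g.val = hodge τ z → g ∈ H}

/-- The Mumford-Tate domain: the points of `ℍ^n` whose Hodge structure is conjugate to that of `τ`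
under a real point of the Mumford-Tate group of `τ`. -/
def domain (τ : Fin n → ℍ) : Set (Fin n → ℍ) :=
  {σ | ∃ g ∈ MT τ, (∀ a b, (g.val a b).im = 0) ∧ ∀ z, hodge σ z * g.val = g.val * hodge τ z}

/-- The Hodge subvariety: the image of the Mumford-Tate domain in `Y(1)^n = ℂ^n`. -/
def hodgeVar (τ : Fin n → ℍ) : Set (Fin n → ℂ) := (fun σ i ↦ jInv (σ i)) '' domain τ

/-- The base: the complement of the poles. -/
def base (x : Fin n → RatFunc ℂ) : Set ℂ := {t | ∀ i, (x i).denom.eval t ≠ 0}

/-- The period map, with values in `Y(1)^n = ℂ^n`. -/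
noncomputable def period (x : Fin n → RatFunc ℂ) (t : ℂ) (i : Fin n) : ℂ :=
  (x i).eval (RingHom.id ℂ) t

/-- The Zariski tangent space at `y` of the Zariski closure of `V`. -/
noncomputable def tangent (V : Set (Fin n → ℂ)) (y : Fin n → ℂ) : Submodule ℂ (Fin n → ℂ) :=
  ⨅ p ∈ MvPolynomial.vanishingIdeal ℂ V,
    LinearMap.ker (∑ i, MvPolynomial.eval y (MvPolynomial.pderiv i p) • LinearMap.proj i :
      (Fin n → ℂ) →ₗ[ℂ] ℂ)

/-- The point `t` is atypical with respect to the Hodge datum `(MT τ₀, domain τ₀)`: its image is a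
singular point of the image of the period map, or
`codim Φ(t) < codim Φ(S) + codim (Hodge subvariety of t)`, that is
`dim (Hodge subvariety of t) + dim Φ(S) < dim (ambient Hodge variety)`. -/
def IsAtypical (x : Fin n → RatFunc ℂ) (τ₀ : Fin n → ℍ) (t : ℂ) : Prop :=
  dimOf (period x '' base x) < Module.finrank ℂ (tangent (period x '' base x) (period x t)) ∨
    ∃ τ : Fin n → ℍ, (∀ i, jInv (τ i) = period x t i) ∧
      dimOf (hodgeVar τ) + dimOf (period x '' base x) < dimOf (hodgeVar τ₀)

end Pool.Agent.Lib.HL14
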