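import Pool.Agent.Lib.HL14.Reach
import Pool.Agent.Lib.helper6.Dim
import Pool.Agent.Lib.ZP3.Ent
import Pool.Agent.Lib.ZP3.Hecke

/-! Dimensions of Hodge subvarieties; singular points of a rational curve. -/

open UpperHalfPlane MvPolynomial

namespace Pool.Agent.Lib.HL14

open Pool.Agent.Lib.MP_0704bf_ag Pool.Agent.Lib.ZP3 Pool.Agent.Lib.helper6

variable {n : ℕ}

theorem dim_ge {T : Set (Fin n → ℂ)} (K : Finset (Fin n)) (S : K → Set ℂ)
    (hS : ∀ k, (S k).Infinite) (h : ∀ y : K → ℂ, (∀ k, y k ∈ S k) → ∃ x ∈ T, ∀ k : K, x k = y k) :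
    (K.card : WithBot ℕ∞) ≤ dimOf T := by
  have hind : AlgebraicIndependent ℂ
      fun k : K ↦ Ideal.Quotient.mk (vanishingIdeal ℂ T) (X (k : Fin n)) := by
    rw [algebraicIndependent_iff]
    intro p hp
    have h2 : rename Subtype.val p ∈ vanishingIdeal ℂ T := by
      rw [← Ideal.Quotient.eq_zero_iff_mem, ← hp]
      have : (Ideal.Quotient.mkₐ ℂ (vanishingIdeal ℂ T)).comp (rename Subtype.val) =
          aeval fun k : K ↦ Ideal.Quotient.mk (vanishingIdeal ℂ T) (X (k : Fin n)) := by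
        ext a
        simp
      exact DFunLike.congr_fun this p
    refine MvPolynomial.funext_set S hS fun y hy ↦ ?_
    obtain ⟨x, hx, e⟩ := h y fun k ↦ hy k (Set.mem_univ k)
    have h3 := h2 x hx
    rw [aeval_rename, show x ∘ Subtype.val = y from funext e] at h3
    rw [map_zero]
    exact h3
  have := card_le_dim hind
  rwa [Nat.card_eq_fintype_card, Fintype.card_coe] at this

theorem dim_le {T : Set (Fin n → ℂ)} (K : Finset (Fin n))
    (h : ∀ i, i ∉ K → (∃ c, ∀ x ∈ T, x i = c) ∨ ∃ k ∈ K, ∃ Φ : Polynomial (Polynomial ℤ), Φ.Monic ∧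
      ∀ x ∈ T, ev2 Φ (x k) (x i) = 0) : dimOf T ≤ K.card := by
  let φ : MvPolynomial K ℂ →+* MvPolynomial (Fin n) ℂ ⧸ vanishingIdeal ℂ T :=
    (Ideal.Quotient.mk _).comp (rename Subtype.val).toRingHom
  let : Algebra (MvPolynomial K ℂ) (MvPolynomial (Fin n) ℂ ⧸ vanishingIdeal ℂ T) := φ.toAlgebra
  have hC : ∀ c : ℂ, IsIntegral (MvPolynomial K ℂ)
      (Ideal.Quotient.mk (vanishingIdeal ℂ T) (C c)) := fun c ↦ by
    have : Ideal.Quotient.mk (vanishingIdeal ℂ T) (C c) = algebraMap (MvPolynomial K ℂ) _ (C c) := by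
      simp [RingHom.algebraMap_toAlgebra, φ]
    rw [this]
    exact isIntegral_algebraMap
  have eX : ∀ k : K, algebraMap (MvPolynomial K ℂ) _ (X k) =
      Ideal.Quotient.mk (vanishingIdeal ℂ T) (X (k : Fin n)) := fun k ↦ by
    simp [RingHom.algebraMap_toAlgebra, φ]
  have hX : ∀ i, IsIntegral (MvPolynomial K ℂ) (Ideal.Quotient.mk (vanishingIdeal ℂ T) (X i)) := by
    intro i
    by_cases hi : i ∈ K
    · rw [← eX ⟨i, hi⟩]
      exact isIntegral_algebraMap
    rcases h i hi with ⟨c, hc⟩ | ⟨k, hk, Φ, h1, h2⟩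
    · rw [(Ideal.Quotient.eq (y := C c)).2 fun x hx ↦ by simp [hc x hx]]
      exact hC c
    · refine ⟨Φ.map (Polynomial.aeval (X ⟨k, hk⟩ : MvPolynomial K ℂ)).toRingHom, h1.map _, ?_⟩
      have e : (algebraMap (MvPolynomial K ℂ) (MvPolynomial (Fin n) ℂ ⧸ vanishingIdeal ℂ T)).comp
          (Polynomial.aeval (X ⟨k, hk⟩ : MvPolynomial K ℂ) : Polynomial ℤ →ₐ[ℤ] _).toRingHom =
          (Polynomial.aeval (Ideal.Quotient.mk (vanishingIdeal ℂ T) (X k))).toRingHom :=
        Polynomial.ringHom_ext' (RingHom.ext_int _ _) (by simpa using eX ⟨k, hk⟩)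
      rw [Polynomial.eval₂_map, e, ← Polynomial.eval_map]
      change ev2 Φ _ _ = 0
      rw [← ev2_map, Ideal.Quotient.eq_zero_iff_mem]
      intro x hx
      have := ev2_map (eval x) Φ (X k) (X i)
      rw [eval_X, eval_X, h2 x hx] at this
      exact this
  have : Algebra.IsIntegral (MvPolynomial K ℂ) (MvPolynomial (Fin n) ℂ ⧸ vanishingIdeal ℂ T) :=
    ⟨fun q ↦ by
      obtain ⟨p, rfl⟩ := Ideal.Quotient.mk_surjective q
      induction p using MvPolynomial.induction_on with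
      | C a => exact hC a
      | add a b ha hb => exact ha.add hb
      | mul_X a i ha => exact ha.mul (hX i)⟩
  refine le_trans (Order.krullDim_le_of_strictMono (PrimeSpectrum.comap φ) fun I J hIJ ↦
    Ideal.IsIntegral.comap_lt_comap (R := MvPolynomial K ℂ) (I := I.asIdeal) (J := J.asIdeal)
      hIJ) ?_
  change ringKrullDim (MvPolynomial K ℂ) ≤ _
  rw [MvPolynomial.ringKrullDim_of_isNoetherianRing, ringKrullDim_eq_zero_of_field, zero_add,
    Nat.card_eq_fintype_card, Fintype.card_coe]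

/-- the invariant of a curve with complex multiplication -/
def CMj (c : ℂ) : Prop := ∃ m : ℕ, ¬ IsSquare m ∧ Iso m c c

/-- the invariants of isogenous curves -/
def Isg (c d : ℂ) : Prop := ∃ m : ℕ, 0 < m ∧ Iso m c d

theorem Isg.symm {c d : ℂ} (h : Isg c d) : Isg d c := h.imp fun _ k ↦ ⟨k.1, k.2.symm⟩

theorem dim_hodgeVar_le (τ : Fin n → ℍ) (K : Finset (Fin n))
    (h : ∀ i, i ∉ K → CMj (jInv (τ i)) ∨ ∃ k ∈ K, Isg (jInv (τ k)) (jInv (τ i))) :
    dimOf (hodgeVar τ) ≤ K.card := by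
  refine dim_le K fun i hi ↦ (h i hi).imp ?_ ?_
  · rintro ⟨m, h1, h2⟩
    obtain ⟨a, b, c, ha, h3⟩ := isCM_of_end h1 h2
    refine ⟨jInv (τ i), ?_⟩
    rintro _ ⟨σ, hσ, rfl⟩
    have hm : Mob 0 (-c) a b (τ i) (τ i) := by
      unfold Mob
      push_cast
      linear_combination h3
    have hm' := Mob_domain hσ hm
    unfold Mob at hm hm'
    have h4 : ((σ i : ℂ) - τ i) * (a * (σ i + τ i) + b) = 0 := by linear_combination hm' - hm
    refine congrArg jInv (UpperHalfPlane.ext (sub_eq_zero.1 ((mul_eq_zero.1 h4).resolve_right ?_)))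
    intro e
    have e1 := congrArg Complex.im e
    simp only [Complex.add_im, Complex.mul_im, Complex.intCast_re, Complex.intCast_im, zero_mul,
      add_zero, Complex.zero_im, coe_im, mul_eq_zero, Int.cast_eq_zero, ha, false_or] at e1
    linarith [(σ i).im_pos, (τ i).im_pos]
  · rintro ⟨k, hk, N, hN, h1⟩
    obtain ⟨a, b, c, d, hd, hm⟩ := h1.rel rfl rfl
    obtain ⟨Φ, h2, -, h3⟩ := hecke_poly hN
    refine ⟨k, hk, Φ, h2, ?_⟩
    rintro _ ⟨σ, hσ, rfl⟩
    exact (h3 _ _).1 (iso_of_rel ⟨a, b, c, d, hd, Mob_domain hσ hm⟩)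

theorem le_dim_hodgeVar (τ : Fin n → ℍ) (K : Finset (Fin n)) (h1 : ∀ k ∈ K, ¬ CMj (jInv (τ k)))
    (h2 : ∀ k ∈ K, ∀ l ∈ K, k ≠ l → ¬ Isg (jInv (τ k)) (jInv (τ l)))
    (h3 : ∀ i, i ∉ K → CMj (jInv (τ i)) ∨ ∃ k ∈ K, Isg (jInv (τ k)) (jInv (τ i))) :
    (K.card : WithBot ℕ∞) ≤ dimOf (hodgeVar τ) := by
  refine dim_ge K (fun _ ↦ Set.range jInv) (fun _ ↦ range_jInv_infinite) fun y hy ↦ ?_
  choose w hw using hy
  obtain ⟨σ, hσ, e⟩ := reach (fun k hk c ↦ h1 k hk (cm_cnd c))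
    (fun k hk l hl hkl N hN r ↦ h2 k hk l hl hkl ⟨N, hN, iso_of_rel r⟩)
    (fun i hi ↦ (h3 i hi).imp (fun ⟨_, a, b⟩ ↦ isCM_of_end a b)
      fun ⟨k, hk, N, hN, r⟩ ↦ ⟨k, hk, N, hN, r.rel rfl rfl⟩) w
  exact ⟨_, ⟨σ, hσ, rfl⟩, fun k ↦ by simp only [e, hw]⟩

/-- a maximal free set -/
theorem exists_free {ι : Type} [Fintype ι] (P : ι → Prop) (R : ι → ι → Prop)
    (hR : ∀ i j, R i j → R j i) (K : Finset ι) (h1 : ∀ k ∈ K, ¬ P k)
    (h2 : ∀ k ∈ K, ∀ l ∈ K, k ≠ l → ¬ R k l) : ∃ L : Finset ι, K ⊆ L ∧ (∀ k ∈ L, ¬ P k) ∧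
      (∀ k ∈ L, ∀ l ∈ L, k ≠ l → ¬ R k l) ∧ ∀ i, i ∉ L → P i ∨ ∃ k ∈ L, R k i := by
  classical
  obtain ⟨L, ⟨a1, a2, a3⟩, hL⟩ := Set.Finite.exists_maximalFor Finset.card
    {L : Finset ι | K ⊆ L ∧ (∀ k ∈ L, ¬ P k) ∧ ∀ k ∈ L, ∀ l ∈ L, k ≠ l → ¬ R k l}
    (Set.toFinite _) ⟨K, subset_rfl, h1, h2⟩
  refine ⟨L, a1, a2, a3, fun i hi ↦ ?_⟩
  by_contra hc
  push Not at hc
  have := hL (j := insert i L) ⟨a1.trans (Finset.subset_insert _ _), by
    simpa [hc.1] using a2, fun k hk l hl hkl ↦ by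
      rcases Finset.mem_insert.1 hk with rfl | hk' <;> rcases Finset.mem_insert.1 hl with rfl | hl'
      · exact absurd rfl hkl
      · exact fun r ↦ hc.2 l hl' (hR _ _ r)
      · exact hc.2 k hk'
      · exact a3 k hk' l hl' hkl⟩ (Finset.card_le_card (Finset.subset_insert _ _))
  rw [Finset.card_insert_of_notMem hi] at this
  omega

theorem ev_aeval (x : Fin n → RatFunc ℂ) {t : ℂ} (ht : t ∈ base x) (p : MvPolynomial (Fin n) ℂ) :
    (aeval x p).denom.eval₂ (RingHom.id ℂ) t ≠ 0 ∧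
      (aeval x p).eval (RingHom.id ℂ) t = eval (period x t) p := by
  induction p using MvPolynomial.induction_on with
  | C a => simp [RatFunc.algebraMap_eq_C]
  | add a b ha hb =>
    rw [map_add, map_add, RatFunc.eval_add _ _ ha.1 hb.1, ha.2, hb.2]
    refine ⟨fun e ↦ mul_ne_zero ha.1 hb.1 ?_, rfl⟩
    rw [← Polynomial.eval₂_mul]
    exact Polynomial.eval₂_eq_zero_of_dvd_of_eval₂_eq_zero _ _ (RatFunc.denom_add_dvd _ _) e
  | mul_X a i ha =>
    rw [map_mul, map_mul, aeval_X, eval_X, RatFunc.eval_mul _ _ ha.1 (ht i), ha.2]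
    refine ⟨fun e ↦ mul_ne_zero ha.1 (ht i) ?_, rfl⟩
    change _ * Polynomial.eval₂ (RingHom.id ℂ) t _ = 0
    rw [← Polynomial.eval₂_mul]
    exact Polynomial.eval₂_eq_zero_of_dvd_of_eval₂_eq_zero _ _ (RatFunc.denom_mul_dvd _ _) e

theorem zeros_finite (x : Fin n → RatFunc ℂ) {p : MvPolynomial (Fin n) ℂ} (hp : aeval x p ≠ 0) :
    {t | t ∈ base x ∧ eval (period x t) p = 0}.Finite := by
  refine (Polynomial.finite_setOf_isRoot (RatFunc.num_ne_zero hp)).subset ?_
  rintro t ⟨h1, h2⟩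
  obtain ⟨h3, h4⟩ := ev_aeval x h1 p
  rw [h2, RatFunc.eval, div_eq_zero_iff] at h4
  exact h4.resolve_right h3

theorem mem_van (x : Fin n → RatFunc ℂ) {p : MvPolynomial (Fin n) ℂ} (hp : aeval x p = 0) :
    p ∈ vanishingIdeal ℂ (period x '' base x) := by
  rintro _ ⟨t, ht, rfl⟩
  have := (ev_aeval x ht p).2
  rw [hp, RatFunc.eval_zero] at this
  exact this.symm

theorem base_infinite (x : Fin n → RatFunc ℂ) : (base x).Infinite := by
  refine Set.infinite_of_finite_compl ((Set.finite_iUnion fun i ↦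
    Polynomial.finite_setOf_isRoot (RatFunc.denom_ne_zero (x i))).subset fun t ht ↦ ?_)
  simpa [base] using ht

theorem one_le_dim (x : Fin n → RatFunc ℂ) {i : Fin n} (hi : ∀ c, x i ≠ RatFunc.C c) :
    1 ≤ dimOf (period x '' base x) := by
  have h1 : ((fun t ↦ period x t i) '' base x).Infinite := by
    intro hf
    refine base_infinite x ((hf.biUnion fun c _ ↦ zeros_finite x (p := X i - C c)
      (by simpa [RatFunc.algebraMap_eq_C, sub_eq_zero] using hi c)).subset fun t ht ↦ ?_)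
    exact Set.mem_biUnion (Set.mem_image_of_mem _ ht) ⟨ht, by simp⟩
  have := dim_ge (T := period x '' base x) {i} (fun _ ↦ _) (fun _ ↦ h1)
    fun y hy ↦ by
      obtain ⟨t, ht, e⟩ := hy ⟨i, Finset.mem_singleton_self i⟩
      refine ⟨_, ⟨t, ht, rfl⟩, fun k ↦ ?_⟩
      obtain ⟨k, hk⟩ := k
      obtain rfl := Finset.mem_singleton.1 hk
      exact e
  simpa using this

theorem zero_le_dim {T : Set (Fin n → ℂ)} (hT : T.Nonempty) : 0 ≤ dimOf T := by
  simpa using dim_ge (T := T) ∅ (fun _ ↦ Set.univ) (fun _ ↦ Set.infinite_univ) fun y _ ↦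
    hT.imp fun x hx ↦ ⟨hx, by simp⟩

theorem tangent_apply {V : Set (Fin n → ℂ)} {y v : Fin n → ℂ} (hv : v ∈ tangent V y)
    {p : MvPolynomial (Fin n) ℂ} (hp : p ∈ vanishingIdeal ℂ V) :
    ∑ i, eval y (pderiv i p) * v i = 0 := by
  simp only [tangent, Submodule.mem_iInf, LinearMap.mem_ker] at hv
  simpa using hv p hp

theorem exists_sep {a : RatFunc ℂ} (ha : ∀ c, a ≠ RatFunc.C c) (b : RatFunc ℂ) :
    ∃ P : Polynomial (Polynomial ℂ), Polynomial.aevalAeval a b P = 0 ∧
      Polynomial.aevalAeval a b P.derivative ≠ 0 := by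
  classical
  have h0 : ∃ m, ∃ P : Polynomial (Polynomial ℂ), P ≠ 0 ∧ Polynomial.aevalAeval a b P = 0 ∧
      P.natDegree = m := by
    have h1 : ¬ AlgebraicIndependent ℂ ![a, b] := fun h ↦ by
      have : Algebra.IsAlgebraic (Polynomial ℂ) (RatFunc ℂ) :=
        IsLocalization.isAlgebraic _ (nonZeroDivisors (Polynomial ℂ))
      have := h.lift_cardinalMk_le_trdeg
      rw [← trdeg_add_eq ℂ (Polynomial ℂ) (A := RatFunc ℂ), Polynomial.trdeg_of_isDomain,
        trdeg_eq_zero (R := Polynomial ℂ)] at this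
      simp at this
    rw [algebraicIndependent_iff] at h1
    push Not at h1
    obtain ⟨q, h2, h3⟩ := h1
    refine ⟨_, (Polynomial.Bivariate.equivMvPolynomial ℂ).symm q, by simpa using h3, ?_, rfl⟩
    rw [← h2]
    have : (Polynomial.aevalAeval a b).comp
        (Polynomial.Bivariate.equivMvPolynomial ℂ).symm.toAlgHom = aeval ![a, b] := by
      ext i : 1
      fin_cases i <;> simp
    exact DFunLike.congr_fun this q
  obtain ⟨P, h1, h2, h3⟩ := Nat.find_spec h0
  have h4 : P.natDegree ≠ 0 := by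
    intro e
    rw [Polynomial.eq_C_of_natDegree_eq_zero e] at h1 h2
    rw [Polynomial.aevalAeval_C] at h2
    obtain ⟨c, hc⟩ := IsAlgClosed.algebraMap_bijective_of_isIntegral (k := ℂ)
      (K := integralClosure ℂ (RatFunc ℂ)) |>.2
      ⟨a, IsAlgebraic.isIntegral ⟨_, fun k ↦ h1 (by rw [k, map_zero]), h2⟩⟩
    exact ha c (congrArg Subtype.val hc).symm
  refine ⟨P, h2, fun e ↦ ?_⟩
  have h5 := Nat.find_min' h0 ⟨_, fun k ↦ h4 (Polynomial.natDegree_eq_zero_of_derivative_eq_zero k),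
    e, rfl⟩
  have h6 := Polynomial.natDegree_derivative_lt h4
  omega

theorem pderiv_aa {i0 i j : Fin n} (hj : j ≠ i0) (P : Polynomial (Polynomial ℂ)) :
    pderiv j (Polynomial.aevalAeval (X i0 : MvPolynomial (Fin n) ℂ) (X i) P) =
      if i = j then Polynomial.aevalAeval (X i0) (X i) P.derivative else 0 := by
  induction P using Polynomial.induction_on with
  | C r =>
    rw [Polynomial.aevalAeval_C, Derivation.map_aeval, pderiv_X_of_ne hj.symm]
    simp
  | add p q hp hq =>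
    rw [map_add, map_add, hp, hq]
    split_ifs <;> simp
  | monomial m r h =>
    rw [pow_succ, ← mul_assoc, map_mul, Derivation.leibniz, h, Polynomial.derivative_mul,
      Polynomial.aevalAeval_Y, pderiv_X]
    split_ifs with e
    · simp [e]
      ring
    · simp [e]

theorem sing_finite (x : Fin n → RatFunc ℂ) : {t | t ∈ base x ∧ dimOf (period x '' base x) <
    Module.finrank ℂ (tangent (period x '' base x) (period x t))}.Finite := by
  by_cases h : ∃ i0, ∀ c, x i0 ≠ RatFunc.C c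
  · obtain ⟨i0, h0⟩ := h
    choose P h1 h2 using fun i ↦ exists_sep h0 (x i)
    have e : ∀ i Q, aeval x (Polynomial.aevalAeval (X i0 : MvPolynomial (Fin n) ℂ) (X i) Q) =
        Polynomial.aevalAeval (x i0) (x i) Q := fun i Q ↦ by
      have : (aeval x).comp (Polynomial.aevalAeval (X i0 : MvPolynomial (Fin n) ℂ) (X i)) =
          Polynomial.aevalAeval (x i0) (x i) := by
        ext : 2 <;> simp
      exact DFunLike.congr_fun this Q
    refine (Set.finite_iUnion fun i ↦ zeros_finite x (p := Polynomial.aevalAeval (X i0) (X i)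
      (P i).derivative) (by rw [e]; exact h2 i)).subset ?_
    rintro t ⟨ht, hd⟩
    by_contra hc
    simp only [Set.mem_iUnion, Set.mem_setOf_eq, ht, true_and, not_exists] at hc
    have h3 : Module.finrank ℂ (tangent (period x '' base x) (period x t)) ≤ 1 := by
      rw [← Module.finrank_self ℂ]
      refine LinearMap.finrank_le_finrank_of_injective
        (f := (LinearMap.proj i0).comp (Submodule.subtype _)) ?_
      rw [injective_iff_map_eq_zero]
      rintro ⟨v, hv⟩ h4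
      change v i0 = 0 at h4
      ext i
      by_cases hi : i = i0
      · rw [hi]
        exact h4
      have h5 := tangent_apply hv (mem_van x ((e i _).trans (h1 i)))
      rw [Finset.sum_eq_single i (fun j _ hj ↦ by
        by_cases k : j = i0
        · rw [k, h4, mul_zero]
        · rw [pderiv_aa k, if_neg hj.symm, map_zero, zero_mul]) (by simp), pderiv_aa hi,
        if_pos rfl] at h5
      exact (mul_eq_zero.1 h5).resolve_left (hc i)
    exact absurd ((one_le_dim x h0).trans_lt hd) (not_lt.2 (by exact_mod_cast h3))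
  · push Not at h
    choose c hc using h
    refine Set.finite_empty.subset ?_
    rintro t ⟨ht, hd⟩
    have h3 : tangent (period x '' base x) (period x t) = ⊥ := by
      rw [eq_bot_iff]
      intro v hv
      ext i
      have := tangent_apply hv (mem_van x (p := X i - C (c i))
        (by simp [hc, RatFunc.algebraMap_eq_C]))
      simpa [pderiv_X, Pi.single_apply] using this
    rw [h3, finrank_bot] at hd
    exact absurd ((zero_le_dim ⟨_, Set.mem_image_of_mem _ ht⟩).trans_lt hd) (by simp)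

end Pool.Agent.Lib.HL14
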