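import Pool.Agent.Lib.HL14.Dim
import Pool.Agent.Lib.ZP3.Final2

/-! Finiteness of the atypical Hodge locus. -/

open UpperHalfPlane

namespace Pool.Agent.Lib.HL14

open Pool.Agent.Lib.MP_0704bf_ag Pool.Agent.Lib.ZP3

/-- no complex multiplication and no isogenies inside `L` -/
def Free {ι : Type} (x : ι → ℂ) (L : Finset ι) : Prop :=
  (∀ k ∈ L, ¬ CMj (x k)) ∧ ∀ k ∈ L, ∀ l ∈ L, k ≠ l → ¬ Isg (x k) (x l)

theorem two_of_free {ι : Type} [Fintype ι] [DecidableEq ι] {x : ι → ℂ} {K : Finset ι}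
    (hK : Free x K) (h : ∀ L, Free x L → L.card + 2 ≤ Fintype.card ι) :
    ∃ (i1 j1 i2 j2 : ι) (n1 n2 : ℕ), j1 ∉ K ∧ j2 ∉ K ∧ Two (Sum.inl i1) j1 (Sum.inl i2) j2 ∧
      Cnd x (Sum.inl i1) j1 n1 ∧ Cnd x (Sum.inl i2) j2 n2 := by
  obtain ⟨R, r1, r2, r3, r4⟩ := exists_free (fun i ↦ CMj (x i)) (fun i j ↦ Isg (x i) (x j))
    (fun _ _ ↦ Isg.symm) K hK.1 hK.2
  have hc := h R ⟨r2, r3⟩
  have key : ∀ j, j ∉ R → ∃ i m, (i = j ∨ i ∈ R) ∧ Cnd x (Sum.inl i) j m := fun j hj ↦ by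
    rcases r4 j hj with ⟨m, a, b⟩ | ⟨k, hk, m, a, b⟩
    · exact ⟨j, m, .inl rfl, Nat.pos_of_ne_zero fun k ↦ a (k ▸ IsSquare.zero), b, fun _ ↦ a⟩
    · exact ⟨k, m, .inr hk, a, b, fun e ↦ (hj (Sum.inl.inj e ▸ hk)).elim⟩
  obtain ⟨j1, a1, j2, a2, hne⟩ := Finset.one_lt_card.1 (show 1 < Rᶜ.card by
    rw [Finset.card_compl]
    omega)
  rw [Finset.mem_compl] at a1 a2
  obtain ⟨i1, n1, c1, d1⟩ := key j1 a1
  obtain ⟨i2, n2, c2, d2⟩ := key j2 a2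
  refine ⟨i1, j1, i2, j2, n1, n2, fun k ↦ a1 (r1 k), fun k ↦ a2 (r1 k),
    ⟨hne, fun h ↦ ?_, fun h ↦ ?_⟩, d1, d2⟩
  · obtain rfl := Sum.inl.inj h
    exact c1.elim (fun k ↦ hne k.symm) a2
  · obtain rfl := Sum.inl.inj h
    exact c2.elim hne a1

theorem main3 {ι : Type} [Fintype ι] (A B : ι → Polynomial ℂ) (hA : AlgK A) (hB : AlgK B)
    (hco : ∀ i, IsCoprime (A i) (B i)) (hB0 : ∀ i, B i ≠ 0)
    (hcm : ∀ i, ¬ ∀ t, NPk B t → CMj (xk A B t i))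
    (hiso : ∀ i j, i ≠ j → ∀ m, 0 < m → ¬ ∀ t, NPk B t → Iso m (xk A B t i) (xk A B t j)) :
    {t : ℂ | NPk B t ∧ ∀ L, Free (xk A B t) L → L.card + 2 ≤ Fintype.card ι}.Finite := by
  classical
  let K : Finset ι := Finset.univ.filter fun i ↦ (A i).natDegree = 0 ∧ (B i).natDegree = 0
  have hK : ∀ i ∈ K, ∀ t, xk A B t i = (A i).coeff 0 / (B i).coeff 0 := by
    intro i hi t
    have hi := (Finset.mem_filter.1 hi).2
    rw [xk, Polynomial.eq_C_of_natDegree_eq_zero hi.1, Polynomial.eq_C_of_natDegree_eq_zero hi.2]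
    simp
  let κ := {i : ι // i ∉ K}
  obtain ⟨t0, A', B', -, hnice, halg', hmod, -, hval⟩ := normalize2 (κ := κ) (fun i ↦ A i.1)
    (fun i ↦ B i.1) (fun i ↦ hco i.1) (fun i ↦ by
      have := i.2
      simp only [K, Finset.mem_filter, Finset.mem_univ, true_and] at this
      omega) (fun i ↦ hB0 i.1)
  obtain ⟨hA', hB'⟩ := halg' (fun i ↦ hA i.1) (fun i ↦ hB i.1)
  have hN' := hmod fun i j hij m hm ↦ by
    by_contra hcon
    push Not at hcon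
    exact hiso i.1 j.1 (fun e ↦ hij (Subtype.ext e)) m hm fun t ht ↦ hcon t fun l ↦ ht l.1
  let src : ι → κ ⊕ ℂ := fun i ↦
    if h : i ∈ K then Sum.inr ((A i).coeff 0 / (B i).coeff 0) else Sum.inl ⟨i, h⟩
  have hsrc : ∀ i (j : κ), src i = Sum.inl j → i = j.1 := by
    intro i j e
    by_cases h : i ∈ K
    · simp [src, h] at e
    · simp only [src, h, dite_false, Sum.inl.injEq] at e
      rw [← e]
  have hsalg : ∀ i c, src i = Sum.inr c → IsAlgebraic ℚ c := by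
    intro i c e
    by_cases h : i ∈ K
    · simp only [src, h, dite_true, Sum.inr.injEq] at e
      rw [← e, div_eq_mul_inv]
      exact (hA i 0).mul (hB i 0).inv
    · simp [src, h] at e
  let F : ι × κ × ι × κ → Set ℂ := fun q ↦ {s | Two (src q.1) q.2.1 (src q.2.2.1) q.2.2.2 ∧
    NPk B' s ∧ ∃ n1 n2, Cnd (xk A' B' s) (src q.1) q.2.1 n1 ∧
      Cnd (xk A' B' s) (src q.2.2.1) q.2.2.2 n2}
  have hF : ∀ q, (F q).Finite := by
    intro q
    by_cases h : Two (src q.1) q.2.1 (src q.2.2.1) q.2.2.2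
    · exact (finite_two hnice hA' hB' hN' h fun c e ↦ e.elim (hsalg _ c) (hsalg _ c)).subset
        fun s hs ↦ hs.2
    · exact Set.finite_empty.subset fun s hs ↦ h hs.1
  refine (((Set.finite_iUnion hF).image fun s ↦ t0 + s⁻¹).insert t0).subset ?_
  rintro t ⟨hNP, hd⟩
  by_cases ht : t = t0
  · exact Or.inl ht
  right
  obtain ⟨h1, h2⟩ := hval t ht
  obtain ⟨i1, j1, i2, j2, n1, n2, k1, k2, htwo, c1, c2⟩ := two_of_free (K := K)
    ⟨fun i hi H ↦ hcm i fun t' _ ↦ by rwa [hK i hi, ← hK i hi t],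
      fun i hi j hj hij ⟨m, hm, H⟩ ↦ hiso i j hij m hm fun t' _ ↦ by
        rwa [hK i hi, hK j hj, ← hK i hi t, ← hK j hj t]⟩ hd
  have hsv : ∀ i, sv (xk A' B' (t - t0)⁻¹) (src i) = xk A B t i := by
    intro i
    by_cases h : i ∈ K
    · simp only [src, h, dite_true, sv, Sum.elim_inr, id, hK i h]
    · simp only [src, h, dite_false, sv, Sum.elim_inl]
      exact h2 ⟨i, h⟩
  have hc : ∀ i j m (hj : j ∉ K), Cnd (xk A B t) (Sum.inl i) j m →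
      Cnd (xk A' B' (t - t0)⁻¹) (src i) ⟨j, hj⟩ m := by
    intro i j m hj c
    refine ⟨c.1, ?_, fun e ↦ c.2.2 (by rw [hsrc i _ e])⟩
    rw [hsv, h2 ⟨j, hj⟩]
    exact c.2.1
  refine ⟨(t - t0)⁻¹, Set.mem_iUnion.mpr ⟨(i1, ⟨j1, k1⟩, i2, ⟨j2, k2⟩),
    ⟨fun e ↦ htwo.1 (congrArg Subtype.val e), fun e ↦ htwo.2.1 (congrArg Sum.inl (hsrc _ _ e)),
      fun e ↦ htwo.2.2 (congrArg Sum.inl (hsrc _ _ e))⟩, h1.mp fun l ↦ hNP l.1, n1, n2,
    hc _ _ _ k1 c1, hc _ _ _ k2 c2⟩, by simp⟩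

variable {n : ℕ}

theorem free_le_dim {τ : Fin n → ℍ} {L : Finset (Fin n)} (h : Free (fun i ↦ jInv (τ i)) L) :
    (L.card : WithBot ℕ∞) ≤ dimOf (hodgeVar τ) := by
  obtain ⟨R, r1, r2, r3, r4⟩ := exists_free (fun i ↦ CMj (jInv (τ i)))
    (fun i j ↦ Isg (jInv (τ i)) (jInv (τ j))) (fun _ _ ↦ Isg.symm) L h.1 h.2
  exact le_trans (by exact_mod_cast Finset.card_le_card r1) (le_dim_hodgeVar τ R r2 r3 r4)

theorem main (x : Fin n → RatFunc ℂ)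
    (halg : ∀ i k, IsAlgebraic ℚ ((x i).num.coeff k) ∧ IsAlgebraic ℚ ((x i).denom.coeff k))
    (τ₀ : Fin n → ℍ) (h₀ : (fun i ↦ jInv (τ₀ i)) ∈ period x '' base x) :
    {t ∈ base x | IsAtypical x τ₀ t}.Finite := by
  classical
  obtain ⟨t₀, ht₀, e₀⟩ := h₀
  suffices h : {t | t ∈ base x ∧ ∃ τ : Fin n → ℍ, (∀ i, jInv (τ i) = period x t i) ∧
      dimOf (hodgeVar τ) + dimOf (period x '' base x) < dimOf (hodgeVar τ₀)}.Finite from
    ((sing_finite x).union h).subset fun t ht ↦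
      ht.2.imp (fun k ↦ ⟨ht.1, k⟩) fun k ↦ ⟨ht.1, k⟩
  by_cases hc : ∃ i0, ∀ c, x i0 ≠ RatFunc.C c
  · obtain ⟨i0, h0⟩ := hc
    have hx : ∀ t i, period x t i = (x i).num.eval t / (x i).denom.eval t := fun t i ↦ by
      simp [period, RatFunc.eval]
    obtain ⟨K, -, k1, k2, k3⟩ := exists_free (fun i ↦ ∀ t ∈ base x, CMj (period x t i))
      (fun i j ↦ ∃ m, 0 < m ∧ ∀ t ∈ base x, Iso m (period x t i) (period x t j))
      (fun _ _ ⟨m, a, b⟩ ↦ ⟨m, a, fun t ht ↦ (b t ht).symm⟩) ∅ (by simp) (by simp)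
    have hup : dimOf (hodgeVar τ₀) ≤ K.card := dim_hodgeVar_le τ₀ K fun i hi ↦ by
      simp only [← congrFun e₀]
      exact (k3 i hi).imp (fun a ↦ a t₀ ht₀) fun ⟨k, hk, m, a, b⟩ ↦ ⟨k, hk, m, a, b t₀ ht₀⟩
    refine (main3 (ι := K) (fun i ↦ (x i).num) (fun i ↦ (x i).denom) (fun i k ↦ (halg i k).1)
      (fun i k ↦ (halg i k).2) (fun i ↦ RatFunc.isCoprime_num_denom _)
      (fun i ↦ RatFunc.denom_ne_zero _)
      (fun i H ↦ k1 i i.2 fun t ht ↦ by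
        rw [hx]
        exact H t fun l ↦ ht l)
      fun i j hij m hm H ↦ k2 i i.2 j j.2 (fun e ↦ hij (Subtype.ext e)) ⟨m, hm, fun t ht ↦ by
        rw [hx, hx]
        exact H t fun l ↦ ht l⟩).subset ?_
    rintro t ⟨ht, τ, hτ, hd⟩
    refine ⟨fun l ↦ ht l, fun L hL ↦ ?_⟩
    have h1 := free_le_dim (τ := τ) (L := L.map (Function.Embedding.subtype _)) ⟨fun k hk ↦ by
      obtain ⟨k, hk', rfl⟩ := Finset.mem_map.1 hk
      simp only [hτ, hx]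
      exact hL.1 k hk', fun k hk l hl hkl ↦ by
      obtain ⟨k, hk', rfl⟩ := Finset.mem_map.1 hk
      obtain ⟨l, hl', rfl⟩ := Finset.mem_map.1 hl
      simp only [hτ, hx]
      exact hL.2 k hk' l hl' fun e ↦ hkl (by rw [e])⟩
    have h2 := ((add_le_add h1 (one_le_dim x h0)).trans_lt hd).trans_le hup
    rw [Finset.card_map] at h2
    rw [Fintype.card_coe]
    exact_mod_cast h2
  · push Not at hc
    choose c hc using hc
    refine Set.finite_empty.subset ?_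
    rintro t ⟨ht, τ, hτ, hd⟩
    have e : ∀ i, jInv (τ₀ i) = jInv (τ i) := fun i ↦ by
      rw [hτ, ← congrFun e₀ i]
      simp [period, hc]
    obtain ⟨R, -, r2, r3, r4⟩ := exists_free (fun i ↦ CMj (jInv (τ i)))
      (fun i j ↦ Isg (jInv (τ i)) (jInv (τ j))) (fun _ _ ↦ Isg.symm) ∅ (by simp) (by simp)
    have h1 := le_dim_hodgeVar τ R r2 r3 r4
    have h2 := dim_hodgeVar_le τ₀ R (by simpa only [e] using r4)
    have h3 := ((add_le_add h1 (zero_le_dim ⟨_, Set.mem_image_of_mem _ ht⟩)).trans_lt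
      hd).trans_le h2
    simp at h3

end Pool.Agent.Lib.HL14
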