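import Pool.Agent.Lib.HL14.Two
import Pool.Agent.Lib.ZP3.AxConeA

/-! The block diagonal part of the Mumford-Tate group and its Lie algebra. -/

open UpperHalfPlane MvPolynomial

namespace Pool.Agent.Lib.HL14

open Pool.Agent.Lib.ZP3 Pool.Agent.Lib.ZP3.AXD

variable {n : ℕ}

/-- coordinates of a family of matrices -/
def pt (g : Fin n → M2) : (Fin n × Fin 2) × Fin 2 → ℂ := fun v ↦ g v.1.1 v.2 v.1.2

/-- a family of matrices acting on all columns -/
def up (M : Fin n → M2) : Fin n × Fin 2 → M2 := fun k ↦ M k.1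

theorem ap_up (M g : Fin n → M2) : ap (up M) (pt g) = pt (M * g) := by
  funext v
  simp [ap, up, pt, Matrix.mul_apply]

/-- the vanishing ideal -/
def van (G : Set (Fin n → M2)) : Ideal (MvPolynomial ((Fin n × Fin 2) × Fin 2) ℂ) where
  carrier := {c | ∀ g ∈ G, eval (pt g) c = 0}
  add_mem' := fun {a b} ha hb g hg ↦ by rw [map_add, ha g hg, hb g hg, add_zero]
  zero_mem' := fun g _ ↦ map_zero _
  smul_mem' := fun a b hb g hg ↦ by rw [smul_eq_mul, map_mul, hb g hg, mul_zero]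

/-- the Lie algebra -/
def lieG (G : Set (Fin n → M2)) : Submodule ℂ (Fin n → M2) where
  carrier := {M | ∀ c ∈ van G, dv (up M) c ∈ van G}
  add_mem' := fun {M N} hM hN c hc ↦ by
    rw [show up (M + N) = up M + up N from rfl, dv_add]
    exact (van G).add_mem (hM c hc) (hN c hc)
  zero_mem' := fun c _ ↦ by
    rw [show up (0 : Fin n → M2) = 0 from rfl, dv_zero]
    exact (van G).zero_mem
  smul_mem' := fun a M hM c hc ↦ by
    rw [show up (a • M) = a • up M from rfl, dv_smul, Derivation.smul_apply, smul_eq_C_mul]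
    exact (van G).mul_mem_left _ (hM c hc)

theorem lieG_br {G : Set (Fin n → M2)} {M N : Fin n → M2} (hM : M ∈ lieG G) (hN : N ∈ lieG G) :
    M * N - N * M ∈ lieG G := fun c hc ↦ by
  rw [show up (M * N - N * M) = up M * up N - up N * up M from rfl, dv_br,
    Derivation.commutator_apply]
  exact (van G).sub_mem (hN _ (hM c hc)) (hM _ (hN c hc))

theorem deriv_zero {κ : Type} (M : κ → M2) (p : κ × Fin 2 → ℂ) (c : MvPolynomial (κ × Fin 2) ℂ) :
    (Polynomial.derivative (ln p (ap M p) c)).eval 0 = eval p (dv M c) := by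
  induction c using MvPolynomial.induction_on with
  | C a => simp
  | add a b ha hb => simp [ha, hb]
  | mul_X a v ha =>
    have := eval_ln p (ap M p) 0 a
    simp only [mul_zero, add_zero] at this
    simp only [dv_mul, map_add, map_mul, Polynomial.derivative_mul, dv_X, ln_X, eval_lf, eval_X,
      Polynomial.eval_add, Polynomial.eval_mul, ha, this]
    simp
    ring

theorem lie_of_line {G : Set (Fin n → M2)} {M : Fin n → M2}
    (h : ∀ k : ℕ, ∀ g ∈ G, (1 + (k : ℂ) • M) * g ∈ G) : M ∈ lieG G := by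
  intro c hc g hg
  have h0 : ln (pt g) (ap (up M) (pt g)) c = 0 := by
    refine Polynomial.eq_zero_of_infinite_isRoot _ ?_
    refine (Set.infinite_range_of_injective (Nat.cast_injective (R := ℂ))).mono ?_
    rintro _ ⟨k, rfl⟩
    have := hc _ (h k g hg)
    rw [← ap_up, show up (1 + (k : ℂ) • M) = 1 + (k : ℂ) • up M from rfl, ap_lin,
      ← eval_ln] at this
    exact this
  rw [← deriv_zero, h0]
  simp

theorem unip_of_lieG {G : Set (Fin n → M2)} (h1 : 1 ∈ G) {M : Fin n → M2} (h : M ∈ lieG G)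
    (hM : M * M = 0) : ∀ c ∈ van G, eval (pt (1 + M)) c = 0 := by
  have hM' : up M * up M = 0 := by
    rw [show up M * up M = up (M * M) from rfl, hM]
    rfl
  have hn : ∀ m : ℕ, ∀ c ∈ van G, (ln (pt 1) (ap (up M) (pt 1)) c).coeff m = 0 := by
    intro m
    induction m with
    | zero =>
      intro c hc
      rw [Polynomial.coeff_zero_eq_eval_zero, eval_ln]
      simpa using hc 1 h1
    | succ m ih =>
      intro c hc
      have := ih _ (h c hc)
      rw [← deriv_ln hM', Polynomial.coeff_derivative] at this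
      exact (mul_eq_zero.1 this).resolve_right (by exact_mod_cast Nat.succ_ne_zero m)
  intro c hc
  have h0 : ln (pt 1) (ap (up M) (pt 1)) c = 0 := Polynomial.ext fun m ↦ by rw [hn m c hc]; simp
  have := eval_ln (pt 1) (ap (up M) (pt 1)) 1 c
  rw [h0, ap_up, mul_one] at this
  simp only [Polynomial.eval_zero, mul_one] at this
  exact this.symm

/-- the block diagonal elements of the Mumford-Tate group -/
def GG (τ : Fin n → ℍ) : Set (Fin n → M2) := {g | ∃ u ∈ MT τ, u.val = Matrix.blockDiagonal g}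

theorem one_mem_GG (τ : Fin n → ℍ) : 1 ∈ GG τ :=
  ⟨1, (MT τ).one_mem, Matrix.blockDiagonal_one.symm⟩

theorem mul_mem_GG {τ : Fin n → ℍ} {g h : Fin n → M2} (hg : g ∈ GG τ) (hh : h ∈ GG τ) :
    g * h ∈ GG τ := by
  obtain ⟨u, hu, e⟩ := hg
  obtain ⟨v, hv, e'⟩ := hh
  exact ⟨u * v, (MT τ).mul_mem hu hv, by
    rw [Units.val_mul, e, e', ← Matrix.blockDiagonal_mul]; rfl⟩

theorem exists_unit {g : Fin n → M2} (h : ∀ i, (g i).det ≠ 0) :
    ∃ u : GL (Fin 2 × Fin n) ℂ, u.val = Matrix.blockDiagonal g :=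
  ⟨.mkOfDetNeZero (Matrix.blockDiagonal g) (by
    rw [Matrix.det_blockDiagonal]
    exact Finset.prod_ne_zero_iff.2 fun i _ ↦ h i), rfl⟩

theorem hodge_eq (τ : Fin n → ℍ) (z : ℂ) :
    hodge τ z = Matrix.blockDiagonal ((z.re : ℂ) • 1 + (z.im : ℂ) • fun i ↦ cx (τ i)) := by
  rw [Matrix.blockDiagonal_add, Matrix.blockDiagonal_smul, Matrix.blockDiagonal_smul,
    Matrix.blockDiagonal_one, hodge]

theorem cj_mem_GG {τ : Fin n → ℍ} (σ : ℂ ≃+* ℂ) {g : Fin n → M2} (hg : g ∈ GG τ) :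
    (fun i ↦ cj σ (g i)) ∈ GG τ := by
  obtain ⟨u, hu, e⟩ := hg
  refine ⟨Matrix.GeneralLinearGroup.map σ.toRingHom u, ?_, ?_⟩
  · rw [MT, Subgroup.mem_sInf] at hu ⊢
    intro H hH
    obtain ⟨S, hS⟩ := hH.1
    refine (hS _).2 fun p hp ↦ ?_
    have h1 := congrArg σ ((hS u).1 (hu H hH) p hp)
    rw [map_zero] at h1
    rw [← h1]
    exact (MvPolynomial.comp_aeval_apply _ σ.toRingHom.toRatAlgHom p).symm
  · ext a b
    change σ (u.val a b) = _
    rw [e, Matrix.blockDiagonal_apply, Matrix.blockDiagonal_apply]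
    split_ifs
    · rfl
    · exact map_zero σ

theorem line_mem_GG (τ : Fin n → ℍ) (σ : ℂ ≃+* ℂ) (k : ℕ) :
    (1 + (k : ℂ) • fun i ↦ cj σ (cx (τ i))) ∈ GG τ := by
  have h : (1 + (k : ℂ) • fun i ↦ cx (τ i)) ∈ GG τ := by
    obtain ⟨u, hu⟩ := exists_unit (g := 1 + (k : ℂ) • fun i ↦ cx (τ i)) fun i ↦ by
      have h0 := im_ne (τ i)
      have h1 : (1 + (k : ℂ) ^ 2) ≠ 0 := by exact_mod_cast (by positivity : 1 + k ^ 2 ≠ 0)
      refine fun e ↦ h1 ?_
      rw [← e, Matrix.det_fin_two]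
      simp [cx00, cx01, cx10, cx11]
      field_simp
      ring
    refine ⟨u, ?_, hu⟩
    rw [MT, Subgroup.mem_sInf]
    refine fun H hH ↦ hH.2 u (1 + k * Complex.I) ?_
    rw [hu, hodge_eq]
    simp
  have := cj_mem_GG σ h
  convert this using 1
  funext i
  ext a b
  fin_cases a <;> fin_cases b <;> simp [cj_apply]

theorem cj_mem_lie (τ : Fin n → ℍ) (σ : ℂ ≃+* ℂ) :
    (fun i ↦ cj σ (cx (τ i))) ∈ lieG (GG τ) :=
  lie_of_line fun k _ hg ↦ mul_mem_GG (line_mem_GG τ σ k) hg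

theorem mem_GG {τ : Fin n → ℍ} {g : Fin n → M2} (hd : ∀ i, (g i).det ≠ 0)
    (h : ∀ c ∈ van (GG τ), eval (pt g) c = 0) : g ∈ GG τ := by
  obtain ⟨u, hu⟩ := exists_unit hd
  refine ⟨u, ?_, hu⟩
  rw [MT, Subgroup.mem_sInf]
  intro H hH
  obtain ⟨S, hS⟩ := hH.1
  refine (hS _).2 fun p hp ↦ ?_
  let f : (Fin 2 × Fin n) × (Fin 2 × Fin n) → MvPolynomial ((Fin n × Fin 2) × Fin 2) ℂ :=
    fun v ↦ if v.1.2 = v.2.2 then X ((v.1.2, v.2.1), v.1.1) else 0
  have key : ∀ g : Fin n → M2, eval (pt g) (aeval f p) =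
      aeval (fun v ↦ Matrix.blockDiagonal g v.1 v.2) p := by
    intro g
    refine (MvPolynomial.comp_aeval_apply f (eval (pt g)).toRatAlgHom p).trans ?_
    congr 2
    funext v
    simp only [f, Matrix.blockDiagonal_apply, RingHom.toRatAlgHom_apply]
    split_ifs
    · simp [pt]
    · simp
  rw [hu, ← key]
  refine h _ ?_
  rintro g' ⟨v, hv, e⟩
  rw [key, ← e]
  rw [MT, Subgroup.mem_sInf] at hv
  exact (hS v).1 (hv H hH) p hp

theorem unip_mem_GG {τ : Fin n → ℍ} {M : Fin n → M2} (h : M ∈ lieG (GG τ)) (hM : M * M = 0)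
    (hd : ∀ i, (1 + M i).det ≠ 0) : 1 + M ∈ GG τ :=
  mem_GG hd (unip_of_lieG (one_mem_GG τ) h hM)

/-- rational matrices commuting with the Hodge structure commute with the group -/
theorem comm_MT {τ : Fin n → ℍ} (A : Matrix (Fin 2 × Fin n) (Fin 2 × Fin n) ℤ)
    (h : ∀ z, Commute (hodge τ z) (A.map fun m ↦ (m : ℂ))) {g : GL (Fin 2 × Fin n) ℂ}
    (hg : g ∈ MT τ) : Commute g.val (A.map fun m ↦ (m : ℂ)) := by
  let H : Subgroup (GL (Fin 2 × Fin n) ℂ) :=
    { carrier := {g | Commute g.val (A.map fun m ↦ (m : ℂ))}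
      mul_mem' := fun {a b} ha hb ↦ Commute.mul_left ha hb
      one_mem' := Commute.one_left _
      inv_mem' := fun {a} ha ↦ Commute.units_inv_left ha }
  rw [MT, Subgroup.mem_sInf] at hg
  refine hg H ⟨⟨Set.range fun v : (Fin 2 × Fin n) × (Fin 2 × Fin n) ↦
    ∑ c, X (v.1, c) * C (A c v.2 : ℚ) - ∑ c, C (A v.1 c : ℚ) * X (c, v.2), fun u ↦ ?_⟩,
    fun u z e ↦ show Commute u.val _ from e ▸ h z⟩
  change u.val * _ = _ * u.val ↔ _
  simp only [Set.forall_mem_range, ← Matrix.ext_iff, Prod.forall (α := Fin 2 × Fin n),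
    Matrix.mul_apply, Matrix.map_apply, map_sub, map_sum, map_mul, aeval_X, aeval_C, sub_eq_zero,
    eq_ratCast, Rat.cast_intCast]

/-- a matrix supported on one block -/
def blk {R : Type} [Zero R] (i k : Fin n) (A : Matrix (Fin 2) (Fin 2) R) :
    Matrix (Fin 2 × Fin n) (Fin 2 × Fin n) R :=
  Matrix.of fun a b ↦ if a.2 = i ∧ b.2 = k then A a.1 b.1 else 0

theorem blk_comm (i k : Fin n) (A : M2) (M : Fin n → M2) :
    Commute (Matrix.blockDiagonal M) (blk i k A) ↔ A * M k = M i * A := by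
  have e1 : Matrix.blockDiagonal M * blk i k A = blk i k (M i * A) := by
    ext ⟨a, i'⟩ ⟨b, k'⟩
    simp only [Matrix.mul_apply, blk, Matrix.of_apply, Matrix.blockDiagonal_apply,
      Fintype.sum_prod_type]
    by_cases h1 : i' = i <;> by_cases h2 : k' = k <;> simp [h1, h2]
  have e2 : blk i k A * Matrix.blockDiagonal M = blk i k (A * M k) := by
    ext ⟨a, i'⟩ ⟨b, k'⟩
    simp only [Matrix.mul_apply, blk, Matrix.of_apply, Matrix.blockDiagonal_apply,
      Fintype.sum_prod_type]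
    by_cases h1 : i' = i <;> by_cases h2 : k' = k <;> simp [h1, h2]
  rw [Commute, SemiconjBy, e1, e2]
  constructor
  · intro h
    ext a b
    simpa [blk] using (congrFun (congrFun h (a, i)) (b, k)).symm
  · intro h
    rw [h]

theorem comm_domain {τ σ : Fin n → ℍ} (hσ : σ ∈ domain τ) {i k : Fin n}
    (A : Matrix (Fin 2) (Fin 2) ℤ)
    (h : A.map (fun m ↦ (m : ℂ)) * cx (τ k) = cx (τ i) * A.map fun m ↦ (m : ℂ)) :
    A.map (fun m ↦ (m : ℂ)) * cx (σ k) = cx (σ i) * A.map fun m ↦ (m : ℂ) := by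
  obtain ⟨g, hg, -, hc⟩ := hσ
  have e : (blk i k A).map (fun m ↦ (m : ℂ)) = blk i k (A.map fun m ↦ (m : ℂ)) := by
    ext a b
    simp only [blk, Matrix.map_apply, Matrix.of_apply]
    split_ifs <;> simp
  have h1 := (blk_comm i k _ fun l ↦ cx (τ l)).2 h
  have h2 := comm_MT (blk i k A) (fun z ↦ by
    rw [e]
    exact ((Commute.one_left _).smul_left _).add_left (h1.smul_left _)) hg
  rw [e] at h2
  have h3 := hc Complex.I
  simp only [hodge, Complex.I_re, Complex.I_im, Complex.ofReal_zero, Complex.ofReal_one, zero_smul,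
    one_smul, zero_add] at h3
  refine (blk_comm i k _ fun l ↦ cx (σ l)).1 ?_
  refine (Units.mul_left_inj g).1 ?_
  rw [mul_assoc, ← h2.eq, ← mul_assoc, h3, mul_assoc, h1.eq, ← mul_assoc, h2.eq, mul_assoc, ← h3,
    mul_assoc]

end Pool.Agent.Lib.HL14
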