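import Pool.Agent.Lib.HL14.Lie

/-! The Mumford-Tate domain projects onto the factors given by isogeny classes. -/

open UpperHalfPlane
open scoped MatrixGroups

namespace Pool.Agent.Lib.HL14

open Pool.Agent.Lib.MP_0704bf_ag Pool.Agent.Lib.ZP3 Pool.Agent.Lib.ZP3.AXG

variable {n : ℕ}

/-- an integral matrix as a complex matrix -/
abbrev zc (A : Matrix (Fin 2) (Fin 2) ℤ) : M2 := A.map fun m ↦ (m : ℂ)

theorem re_zc (A : Matrix (Fin 2) (Fin 2) ℤ) : Re (zc A) := fun a b ↦ by simp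

theorem cj_zc (σ : ℂ ≃+* ℂ) (A : Matrix (Fin 2) (Fin 2) ℤ) : cj σ (zc A) = zc A := by
  ext a b
  simp [cj_apply]

theorem comm_of_Mob {τ τ' : ℍ} {a b c d : ℤ} (h : Mob a b c d τ τ') :
    zc !![a, b; c, d] * cx τ = cx τ' * zc !![a, b; c, d] :=
  comm_of_mob (re_zc _) (by simpa [Mob] using h)

theorem Mob_of_comm {τ τ' : ℍ} {a b c d : ℤ}
    (h : zc !![a, b; c, d] * cx τ = cx τ' * zc !![a, b; c, d]) : Mob a b c d τ τ' := by
  simpa [Mob] using mob_of_comm h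

theorem Mob_domain {τ σ : Fin n → ℍ} (hσ : σ ∈ domain τ) {i k : Fin n} {a b c d : ℤ}
    (h : Mob a b c d (τ k) (τ i)) : Mob a b c d (σ k) (σ i) :=
  Mob_of_comm (comm_domain hσ _ (comm_of_Mob h))

/-- the traceless part of the Lie algebra -/
def g1 (τ : Fin n → ℍ) : Submodule ℂ (Fin n → M2) where
  carrier := {X | X ∈ lieG (GG τ) ∧ (∀ i, (X i).trace = 0) ∧
    ∀ i k A, zc A * cx (τ k) = cx (τ i) * zc A → X i * zc A = zc A * X k}
  add_mem' := fun {X Y} hX hY ↦ ⟨add_mem hX.1 hY.1, fun i ↦ by simp [hX.2.1 i, hY.2.1 i],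
    fun i k A h ↦ by
      rw [Pi.add_apply, Pi.add_apply, add_mul, mul_add, hX.2.2 i k A h, hY.2.2 i k A h]⟩
  zero_mem' := ⟨zero_mem _, fun i ↦ by simp, fun i k A _ ↦ by simp⟩
  smul_mem' := fun c X hX ↦ ⟨Submodule.smul_mem _ c hX.1, fun i ↦ by simp [hX.2.1 i],
    fun i k A h ↦ by
      rw [Pi.smul_apply, Pi.smul_apply, Matrix.smul_mul, Matrix.mul_smul, hX.2.2 i k A h]⟩

theorem g1_br {τ : Fin n → ℍ} {X Y : Fin n → M2} (hX : X ∈ g1 τ) (hY : Y ∈ g1 τ) :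
    X * Y - Y * X ∈ g1 τ :=
  ⟨lieG_br hX.1 hY.1, fun _ ↦ tr_br _ _, fun i k A h ↦ br_int (hX.2.2 i k A h) (hY.2.2 i k A h)⟩

theorem cj_mem_g1 (τ : Fin n → ℍ) (σ : ℂ ≃+* ℂ) : (fun i ↦ cj σ (cx (τ i))) ∈ g1 τ :=
  ⟨cj_mem_lie τ σ, fun _ ↦ cj_tr _ (cx_tr _), fun i k A h ↦ by
    have := congrArg (cj σ) h
    rw [cj_mul, cj_mul, cj_zc] at this
    exact this.symm⟩

theorem g1_full {τ : Fin n → ℍ} {K : Finset (Fin n)} (h1 : ∀ k ∈ K, ¬ IsCM (τ k))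
    (h2 : ∀ k ∈ K, ∀ l ∈ K, k ≠ l → ∀ N : ℕ, 0 < N → ¬ Rel N (τ k) (τ l)) (X : K → M2)
    (hX : ∀ k, (X k).trace = 0) : ∃ Y ∈ g1 τ, ∀ k : K, Y k = X k := by
  rcases goursat ((g1 τ).map (LinearMap.funLeft ℂ M2 (Subtype.val : K → Fin n)))
    (by
      rintro _ ⟨U, hU, rfl⟩ _ ⟨V, hV, rfl⟩
      exact ⟨_, g1_br hU hV, rfl⟩)
    (by
      rintro _ ⟨U, hU, rfl⟩ i
      exact hU.2.1 i)
    (fun k W hW ↦ by
      obtain ⟨U, hU, e⟩ := sl2_of_nonCM (h1 k k.2)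
        (𝔤 := (g1 τ).map (LinearMap.proj (k : Fin n)))
        (by
          rintro _ ⟨U, hU, rfl⟩ _ ⟨V, hV, rfl⟩
          exact ⟨_, g1_br hU hV, rfl⟩)
        (fun σ ↦ ⟨_, cj_mem_g1 τ σ, rfl⟩) W hW
      exact ⟨_, ⟨U, hU, rfl⟩, e⟩) with h | ⟨i, j, hij, g, hg, h⟩
  · obtain ⟨Y, hY, e⟩ := h X hX
    exact ⟨Y, hY, fun k ↦ congrFun e k⟩
  · obtain ⟨N, hN, hr⟩ := rel_of_link (τ' := τ j) (h1 i i.2) hg
      fun σ ↦ h _ ⟨_, cj_mem_g1 τ σ, rfl⟩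
    exact absurd hr (h2 i i.2 j j.2 (fun e ↦ hij (Subtype.ext e)) N hN)

theorem det_unip {M : M2} (h : M * M = 0) : (1 + M).det = 1 := by
  obtain ⟨h1, h2⟩ := sq_zero h
  rw [Matrix.det_fin_two]
  simp [tr_zero h1]
  linear_combination -h2

theorem re_unip {M : M2} (h : Re M) : Re (1 + M) := fun a b ↦ by
  fin_cases a <;> fin_cases b <;> simp [h _ _]

/-- real elements of determinant one with given components -/
def Hit (τ : Fin n → ℍ) (K : Finset (Fin n)) (A : K → M2) : Prop :=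
  ∃ u ∈ GG τ, (∀ i, Re (u i) ∧ (u i).det = 1) ∧ ∀ k : K, u k = A k

theorem Hit.mul {τ : Fin n → ℍ} {K : Finset (Fin n)} {A B : K → M2} (hA : Hit τ K A)
    (hB : Hit τ K B) : Hit τ K (A * B) := by
  obtain ⟨u, h1, h2, h3⟩ := hA
  obtain ⟨v, k1, k2, k3⟩ := hB
  exact ⟨u * v, mul_mem_GG h1 k1, fun i ↦ ⟨(h2 i).1.mul (k2 i).1, by
    rw [Pi.mul_apply, Matrix.det_mul, (h2 i).2, (k2 i).2, one_mul]⟩,
    fun k ↦ by rw [Pi.mul_apply, Pi.mul_apply, h3, k3]⟩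

theorem hit_unip {τ : Fin n → ℍ} {K : Finset (Fin n)} (h1 : ∀ k ∈ K, ¬ IsCM (τ k))
    (h2 : ∀ k ∈ K, ∀ l ∈ K, k ≠ l → ∀ N : ℕ, 0 < N → ¬ Rel N (τ k) (τ l))
    (h3 : ∀ i, i ∉ K → IsCM (τ i) ∨ ∃ k ∈ K, ∃ N : ℕ, 0 < N ∧ Rel N (τ k) (τ i))
    {E F : K → M2} (hF : ∀ k, (F k).trace = 0) (hE : ∀ k, eH * F k - F k * eH = E k)
    (hr : ∀ k, Re (E k)) (hs : ∀ k, E k * E k = 0) : Hit τ K (1 + E) := by
  obtain ⟨X, hX, eX⟩ := g1_full h1 h2 (fun _ ↦ eH) fun _ ↦ tr_eH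
  obtain ⟨Y, hY, eY⟩ := g1_full h1 h2 F hF
  have hM := g1_br hX hY
  set M := X * Y - Y * X with hM'
  have eM : ∀ k : K, M k = E k := fun k ↦ by
    rw [← hE, ← eX k, ← eY k]
    rfl
  have key : ∀ i, Re (M i) ∧ M i * M i = 0 := by
    intro i
    by_cases hi : i ∈ K
    · rw [eM ⟨i, hi⟩]
      exact ⟨hr _, hs _⟩
    rcases h3 i hi with ⟨a, b, c, ha, h⟩ | ⟨k, hk, N, hN, a, b, c, d, hd, hm⟩
    · have hm : Mob 0 (-c) a b (τ i) (τ i) := by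
        unfold Mob
        push_cast
        linear_combination h
      have e : M i = 0 := comm_br (A := zc !![0, -c; a, b]) (by simpa using ha) (hX.2.1 i)
        (hY.2.1 i) (hX.2.2 i i _ (comm_of_Mob hm)).symm (hY.2.2 i i _ (comm_of_Mob hm)).symm
      rw [e]
      exact ⟨fun _ _ ↦ rfl, mul_zero _⟩
    · have e := hM.2.2 i k _ (comm_of_Mob hm)
      rw [eM ⟨k, hk⟩] at e
      have hN' : (N : ℂ) ≠ 0 := by exact_mod_cast hN.ne'
      have hd' : (a : ℂ) * d - b * c = N := by exact_mod_cast hd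
      have e1 : zc !![a, b; c, d] * zc !![d, -b; -c, a] = (N : ℂ) • (1 : M2) := by
        ext p q
        fin_cases p <;> fin_cases q <;> simp [Matrix.mul_apply, Fin.sum_univ_two, ← hd'] <;> ring
      have e2 : (N : ℂ) • M i = zc !![a, b; c, d] * E ⟨k, hk⟩ * zc !![d, -b; -c, a] := by
        rw [← e, mul_assoc, e1, Matrix.mul_smul, mul_one]
      refine ⟨fun p q ↦ ?_, ?_⟩
      · have := (((re_zc !![a, b; c, d]).mul (hr ⟨k, hk⟩)).mul (re_zc !![d, -b; -c, a])) p q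
        rw [← e2] at this
        simpa [hN.ne'] using this
      · rw [← smul_eq_zero_iff_right hN', ← Matrix.mul_smul, e2, ← mul_assoc, ← mul_assoc, e,
          mul_assoc _ (E _) (E _), hs, mul_zero, zero_mul]
  exact ⟨1 + M, unip_mem_GG hM.1 (funext fun i ↦ (key i).2)
    fun i ↦ by rw [det_unip (key i).2]; exact one_ne_zero,
    fun i ↦ ⟨re_unip (key i).1, det_unip (key i).2⟩, fun k ↦ by
      rw [Pi.add_apply, Pi.add_apply, eM]; rfl⟩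

theorem exists_mob {A : M2} (h : Re A) (hd : A.det = 1) (τ : ℍ) :
    ∃ τ' : ℍ, (τ' : ℂ) * (A 1 0 * τ + A 1 1) = A 0 0 * τ + A 0 1 := by
  rw [Matrix.det_fin_two] at hd
  have h0 : A 1 0 * τ + A 1 1 ≠ 0 := by
    intro e
    have e1 := congrArg Complex.im e
    simp only [Complex.add_im, Complex.mul_im, h _ _, zero_mul, add_zero, Complex.zero_im, coe_im,
      mul_eq_zero, τ.im_pos.ne', or_false] at e1
    have e2 : A 1 0 = 0 := by rw [h.eq, e1]; simp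
    rw [e2, zero_mul, zero_add] at e
    rw [e, e2] at hd
    simp at hd
  let γ : SL(2, ℝ) := ⟨!![(A 0 0).re, (A 0 1).re; (A 1 0).re, (A 1 1).re], by
    rw [Matrix.det_fin_two_of]
    simpa [h _ _] using congrArg Complex.re hd⟩
  refine ⟨γ • τ, ?_⟩
  rw [coe_specialLinearGroup_apply]
  have e00 : γ 0 0 = (A 0 0).re := rfl
  have e01 : γ 0 1 = (A 0 1).re := rfl
  have e10 : γ 1 0 = (A 1 0).re := rfl
  have e11 : γ 1 1 = (A 1 1).re := rfl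
  rw [e00, e01, e10, e11]
  simp only [Algebra.algebraMap_self, RingHom.id_apply, ← h.eq]
  exact div_mul_cancel₀ _ h0

theorem reach {τ : Fin n → ℍ} {K : Finset (Fin n)} (h1 : ∀ k ∈ K, ¬ IsCM (τ k))
    (h2 : ∀ k ∈ K, ∀ l ∈ K, k ≠ l → ∀ N : ℕ, 0 < N → ¬ Rel N (τ k) (τ l))
    (h3 : ∀ i, i ∉ K → IsCM (τ i) ∨ ∃ k ∈ K, ∃ N : ℕ, 0 < N ∧ Rel N (τ k) (τ i))
    (y : K → ℍ) : ∃ σ ∈ domain τ, ∀ k : K, σ k = y k := by
  have hT : ∀ s : K → ℝ, Hit τ K (1 + fun k ↦ (s k : ℂ) • eE) := fun s ↦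
    hit_unip h1 h2 h3 (F := fun k ↦ (s k / 2 : ℂ) • eE) (fun k ↦ by simp [tr_eE])
      (fun k ↦ by
        rw [Matrix.mul_smul, Matrix.smul_mul, ← smul_sub, br_HE, smul_smul, div_mul_cancel₀]
        norm_num)
      (fun k a b ↦ by fin_cases a <;> fin_cases b <;> simp [eE])
      fun k ↦ by
        ext a b
        fin_cases a <;> fin_cases b <;> simp [eE]
  have hL : ∀ s : K → ℝ, Hit τ K (1 + fun k ↦ (s k : ℂ) • eF) := fun s ↦
    hit_unip h1 h2 h3 (F := fun k ↦ (s k / (-2) : ℂ) • eF) (fun k ↦ by simp [tr_eF])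
      (fun k ↦ by
        rw [Matrix.mul_smul, Matrix.smul_mul, ← smul_sub, br_HF, smul_smul, div_mul_cancel₀]
        norm_num)
      (fun k a b ↦ by fin_cases a <;> fin_cases b <;> simp [eF])
      fun k ↦ by
        ext a b
        fin_cases a <;> fin_cases b <;> simp [eF]
  let s : K → ℝ := fun k ↦ (√((τ k).im * (y k).im))⁻¹
  have hp : ∀ k : K, 0 < (τ k).im * (y k).im := fun k ↦ mul_pos (τ k).im_pos (y k).im_pos
  have hs0 : ∀ k, (s k : ℂ) ≠ 0 := fun k ↦ by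
    exact_mod_cast inv_ne_zero (Real.sqrt_pos.2 (hp k)).ne'
  have hs : ∀ k, (s k : ℂ) ^ 2 * ((τ k).im * (y k).im) = 1 := fun k ↦ by
    have : s k ^ 2 * ((τ k).im * (y k).im) = 1 := by
      rw [inv_pow, Real.sq_sqrt (hp k).le, inv_mul_cancel₀ (hp k).ne']
    exact_mod_cast this
  obtain ⟨u, ⟨g, hg, eg⟩, hu, eu⟩ := ((hT fun k ↦ (y k).re - (s k)⁻¹).mul (hL s)).mul
    (hT fun k ↦ -(s k)⁻¹ - (τ k).re)
  choose σ hσ using fun i ↦ exists_mob (hu i).1 (hu i).2 (τ i)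
  refine ⟨σ, ⟨g, hg, fun a b ↦ ?_, fun z ↦ ?_⟩, fun k ↦ ?_⟩
  · rw [eg, Matrix.blockDiagonal_apply]
    split_ifs
    · exact (hu _).1 _ _
    · rfl
  · rw [eg, hodge_eq, hodge_eq, ← Matrix.blockDiagonal_mul, ← Matrix.blockDiagonal_mul]
    congr 1
    funext i
    simp only [Pi.add_apply, Pi.smul_apply, Pi.one_apply, add_mul, mul_add, Matrix.smul_mul,
      Matrix.mul_smul, one_mul, mul_one, comm_of_mob (hu i).1 (hσ i)]
  · have h := hσ k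
    rw [eu k] at h
    simp [eE, eF, Matrix.mul_apply, Fin.sum_univ_two] at h
    have k0 := hs0 k
    have k1 := hs k
    have k2 := im_ne (τ k)
    ext
    rw [coe_eq (τ k)] at h
    rw [coe_eq (y k)]
    field_simp at h
    apply mul_left_cancel₀ (mul_ne_zero (mul_ne_zero (pow_ne_zero 2 k0) k2) Complex.I_ne_zero)
    linear_combination h + k1 - ((s k : ℂ) ^ 2 * ((τ k).im * (y k).im)) * Complex.I_sq

end Pool.Agent.Lib.HL14
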